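import Mathlib

/-!
# The Davis complex of a graph product of finite groups and its reduced chains

`A` is a group with finite groups `H v` and homomorphisms `ι v : H v →* A`, `v ∈ V`, which commute for adjacent
vertices of the graph `G`. The cubes of the Davis complex are the intervals `[g A_S, g A_(S ∪ R)]`, `S ∪ R` a clique.
-/

set_option autoImplicit false

open Finset

namespace Pool.Agent.H85.DV

variable {V : Type} [DecidableEq V] [Fintype V]

/-- the sign of `v` with respect to the set `R` in the order given by `ν` -/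
def sg (ν : V → ℕ) (R : Finset V) (v : V) : ℂ := (-1) ^ (R.filter fun u => ν u < ν v).card

section defs

variable {A : Type} [Group A] {H : V → Type} [∀ v, Group (H v)] [∀ v, Fintype (H v)]

/-- Cellular `ℓ²`-chains of degree `i` of the cubical Davis complex: the vertices are the cosets `g A_S`, `S` a
clique, `A_S` the subgroup generated by the images of the `H v`, `v ∈ S`; the cubes are the intervals
`[g A_S, g A_(S ∪ R)]`, `S` and `R` disjoint, `S ∪ R` a clique, of dimension `|R|`; `c S R g` is the coefficient of
this cube. -/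
structure IsDavisChain (G : SimpleGraph V) (ι : ∀ v, H v →* A) (i : ℕ)
    (c : Finset V → Finset V → A → ℂ) : Prop where
  supp : ∀ S R g, c S R g ≠ 0 → Disjoint S R ∧ G.IsClique ((S ∪ R : Finset V) : Set V) ∧ R.card = i
  inv : ∀ S R, ∀ v ∈ S, ∀ (x : H v) (g : A), c S R (g * ι v x) = c S R g
  l2 : ∀ S R, Summable fun g => ‖c S R g‖ ^ 2

/-- The cellular boundary: the boundary of the cube `[g A_S, g A_(S ∪ R)]` is the sum over `v ∈ R` of the sign of `v`
times the difference of the faces `[g A_(S ∪ {v}), g A_(S ∪ R)]` and `[g A_S, g A_(S ∪ R \ {v})]`. -/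
noncomputable def bdD (ι : ∀ v, H v →* A) (ν : V → ℕ) (c : Finset V → Finset V → A → ℂ)
    (S R : Finset V) (g : A) : ℂ :=
  ∑ v ∈ Rᶜ, sg ν R v * (if v ∈ S then ∑ x : H v, c (S.erase v) (insert v R) (g * ι v x)
    else -c S (insert v R) g)

/-- The reduced `ℓ²`-homology of the Davis complex vanishes in degree `i`: every `ℓ²`-cycle is an `ℓ²`-limit of
boundaries of `ℓ²`-chains. -/
def L2ZeroD (G : SimpleGraph V) (ι : ∀ v, H v →* A) (i : ℕ) : Prop :=
  ∀ ν : V → ℕ, Function.Injective ν → ∀ z : Finset V → Finset V → A → ℂ, IsDavisChain G ι i z →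
    (∀ S R g, bdD ι ν z S R g = 0) → ∀ ε : ℝ, 0 < ε → ∃ y : Finset V → Finset V → A → ℂ,
      IsDavisChain G ι (i + 1) y ∧ ∑ S, ∑ R, ∑' g, ‖z S R g - bdD ι ν y S R g‖ ^ 2 < ε

/-- Reduced chains: the cubes with the smallest vertex `g A_∅`, no boundary at the other vertices. -/
structure IsModelChain (G : SimpleGraph V) (ι : ∀ v, H v →* A) (i : ℕ)
    (f : Finset V → A → ℂ) : Prop where
  supp : ∀ T g, f T g ≠ 0 → G.IsClique (T : Set V) ∧ T.card = i
  mean : ∀ T, ∀ v ∈ T, ∀ g : A, ∑ x : H v, f T (g * ι v x) = 0
  l2 : ∀ T, Summable fun g => ‖f T g‖ ^ 2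

/-- the boundary of reduced chains -/
noncomputable def bdMod (ν : V → ℕ) (f : Finset V → A → ℂ) (T : Finset V) (g : A) : ℂ :=
  ∑ v ∈ Tᶜ, sg ν T v * f (insert v T) g

/-- every reduced `ℓ²`-cycle of degree `i` is an `ℓ²`-limit of boundaries of reduced `ℓ²`-chains -/
def L2ZeroMod (G : SimpleGraph V) (ι : ∀ v, H v →* A) (i : ℕ) : Prop :=
  ∀ ν : V → ℕ, Function.Injective ν → ∀ z : Finset V → A → ℂ, IsModelChain G ι i z →
    (∀ T g, bdMod ν z T g = 0) → ∀ ε : ℝ, 0 < ε → ∃ y : Finset V → A → ℂ,
      IsModelChain G ι (i + 1) y ∧ ∑ T, ∑' g, ‖z T g - bdMod ν y T g‖ ^ 2 < ε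

end defs

section

variable {A : Type} [Group A] {H : V → Type} [∀ v, Group (H v)] [∀ v, Fintype (H v)]
  {G : SimpleGraph V} {ι : ∀ v, H v →* A} {i : ℕ} {ν : V → ℕ}

/-- one direction of the boundary -/
noncomputable def tv (ι : ∀ v, H v →* A) (c : Finset V → Finset V → A → ℂ) (v : V) (S R : Finset V)
    (g : A) : ℂ :=
  if v ∈ S then ∑ x : H v, c (S.erase v) (insert v R) (g * ι v x) else -c S (insert v R) g

theorem bdD_eq (c : Finset V → Finset V → A → ℂ) (S R : Finset V) (g : A) :
    bdD ι ν c S R g = ∑ v ∈ Rᶜ, sg ν R v * tv ι c v S R g := rfl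

omit [Fintype V] in
/-- the support: it is enough that one of the sets `S`, `R` is not allowed -/
theorem tv_zero {c : Finset V → Finset V → A → ℂ} (hc : ∀ S R g, c S R g ≠ 0 →
    Disjoint S R ∧ G.IsClique ((S ∪ R : Finset V) : Set V)) {v : V} {S R : Finset V} (hv : v ∉ R)
    (h : ¬ (Disjoint S R ∧ G.IsClique ((S ∪ R : Finset V) : Set V))) (g : A) :
    tv ι c v S R g = 0 := by
  unfold tv
  by_cases hS : v ∈ S
  · rw [if_pos hS]
    refine sum_eq_zero fun x _ => ?_
    by_contra h0
    obtain ⟨h1, h2⟩ := hc _ _ _ h0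
    refine h ⟨?_, ?_⟩
    · rw [disjoint_left] at h1 ⊢
      intro u huS huR
      have huv : u ≠ v := fun h => hv (h ▸ huR)
      exact h1 (mem_erase.2 ⟨huv, huS⟩) (mem_insert_of_mem huR)
    · have h3 : S.erase v ∪ insert v R = S ∪ R := by
        ext u
        simp only [mem_union, mem_erase, mem_insert]
        constructor
        · rintro (h | h | h)
          · exact Or.inl h.2
          · exact Or.inl (h ▸ hS)
          · exact Or.inr h
        · rintro (h | h)
          · by_cases huv : u = v
            · exact Or.inr (Or.inl huv)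
            · exact Or.inl ⟨huv, h⟩
          · exact Or.inr (Or.inr h)
      rwa [h3] at h2
  · rw [if_neg hS, neg_eq_zero]
    by_contra h0
    obtain ⟨h1, h2⟩ := hc _ _ _ h0
    refine h ⟨?_, ?_⟩
    · exact h1.mono_right (subset_insert v R)
    · refine h2.subset ?_
      exact_mod_cast union_subset_union_right (subset_insert v R)

omit [Fintype V] in
/-- the signs of two directions -/
theorem sg_swap (hν : Function.Injective ν) {R : Finset V} {u v : V} (hu : u ∉ R) (hv : v ∉ R)
    (huv : u ≠ v) : sg ν R u * sg ν (insert u R) v + sg ν R v * sg ν (insert v R) u = 0 := by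
  unfold sg
  rw [filter_insert, filter_insert]
  rcases lt_or_gt_of_ne (fun h => huv (hν h) : ν u ≠ ν v) with h | h
  · rw [if_pos h, if_neg (not_lt.2 h.le), card_insert_of_notMem (fun h1 => hu (mem_filter.1 h1).1)]
    ring
  · rw [if_neg (not_lt.2 h.le), if_pos h, card_insert_of_notMem (fun h1 => hv (mem_filter.1 h1).1)]
    ring

omit [Fintype V] in
/-- the directions commute -/
theorem tv_comm (hcm : ∀ u v, G.Adj u v → ∀ (x : H u) (y : H v), Commute (ι u x) (ι v y))
    {c : Finset V → Finset V → A → ℂ} (hc : ∀ S R g, c S R g ≠ 0 →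
      Disjoint S R ∧ G.IsClique ((S ∪ R : Finset V) : Set V)) {u v : V} (huv : u ≠ v)
    (S R : Finset V) (g : A) :
    tv ι (fun S' R' => tv ι c v S' R') u S R g = tv ι (fun S' R' => tv ι c u S' R') v S R g := by
  unfold tv
  beta_reduce
  have hvu : v ≠ u := huv.symm
  by_cases hu : u ∈ S
  · by_cases hv : v ∈ S
    · rw [if_pos hu, if_pos hv]
      have h1 : ∀ x : H u, (if v ∈ S.erase u then ∑ y : H v, c ((S.erase u).erase v)
          (insert v (insert u R)) (g * ι u x * ι v y) else -c (S.erase u) (insert v (insert u R))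
            (g * ι u x)) = ∑ y : H v, c ((S.erase u).erase v) (insert v (insert u R))
              (g * ι u x * ι v y) := fun x => if_pos (mem_erase.2 ⟨hvu, hv⟩)
      have h2 : ∀ y : H v, (if u ∈ S.erase v then ∑ x : H u, c ((S.erase v).erase u)
          (insert u (insert v R)) (g * ι v y * ι u x) else -c (S.erase v) (insert u (insert v R))
            (g * ι v y)) = ∑ x : H u, c ((S.erase v).erase u) (insert u (insert v R))
              (g * ι v y * ι u x) := fun y => if_pos (mem_erase.2 ⟨huv, hu⟩)
      simp only [h1, h2]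
      rw [sum_comm]
      refine sum_congr rfl fun y _ => sum_congr rfl fun x _ => ?_
      rw [erase_right_comm, Finset.insert_comm v u R]
      by_cases hadj : G.Adj u v
      · rw [mul_assoc, mul_assoc, (hcm u v hadj x y).eq]
      · have h3 : ∀ g', c ((S.erase v).erase u) (insert u (insert v R)) g' = 0 := by
          intro g'
          by_contra h0
          obtain ⟨-, h4⟩ := hc _ _ _ h0
          refine hadj (h4 ?_ ?_ huv)
          · simp
          · simp
        rw [h3, h3]
    · rw [if_pos hu, if_neg hv, if_pos hu]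
      have h1 : ∀ x : H u, (if v ∈ S.erase u then ∑ y : H v, c ((S.erase u).erase v)
          (insert v (insert u R)) (g * ι u x * ι v y) else -c (S.erase u) (insert v (insert u R))
            (g * ι u x)) = -c (S.erase u) (insert v (insert u R)) (g * ι u x) :=
        fun x => if_neg fun h => hv (mem_of_mem_erase h)
      simp only [h1]
      rw [sum_neg_distrib, Finset.insert_comm v u R]
  · by_cases hv : v ∈ S
    · rw [if_neg hu, if_pos hv, if_pos hv]
      have h2 : ∀ y : H v, (if u ∈ S.erase v then ∑ x : H u, c ((S.erase v).erase u)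
          (insert u (insert v R)) (g * ι v y * ι u x) else -c (S.erase v) (insert u (insert v R))
            (g * ι v y)) = -c (S.erase v) (insert u (insert v R)) (g * ι v y) :=
        fun y => if_neg fun h => hu (mem_of_mem_erase h)
      simp only [h2]
      rw [sum_neg_distrib, Finset.insert_comm v u R]
    · rw [if_neg hu, if_neg hv, if_neg hv, if_neg hu, Finset.insert_comm v u R]

theorem bdD_bdD (hν : Function.Injective ν)
    (hcm : ∀ u v, G.Adj u v → ∀ (x : H u) (y : H v), Commute (ι u x) (ι v y))
    {c : Finset V → Finset V → A → ℂ} (hc : ∀ S R g, c S R g ≠ 0 →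
      Disjoint S R ∧ G.IsClique ((S ∪ R : Finset V) : Set V)) (S R : Finset V) (g : A) :
    bdD ι ν (bdD ι ν c) S R g = 0 := by
  have h1 : ∀ u S R g, tv ι (bdD ι ν c) u S R g =
      ∑ v ∈ (insert u R)ᶜ, sg ν (insert u R) v * tv ι (fun S' R' => tv ι c v S' R') u S R g := by
    intro u S R g
    unfold tv
    by_cases hu : u ∈ S
    · rw [if_pos hu]
      simp only [if_pos hu, bdD_eq]
      rw [sum_comm]
      refine sum_congr rfl fun v _ => ?_
      rw [mul_sum]
      rfl
    · rw [if_neg hu]
      simp only [if_neg hu, bdD_eq]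
      rw [← sum_neg_distrib]
      refine sum_congr rfl fun v _ => ?_
      rw [mul_neg]
      rfl
  rw [bdD_eq]
  simp only [h1, mul_sum]
  -- the sum over the ordered pairs
  have h2 : ∀ u ∈ Rᶜ, ∑ v ∈ (insert u R)ᶜ, sg ν R u * (sg ν (insert u R) v *
      tv ι (fun S' R' => tv ι c v S' R') u S R g) = ∑ v ∈ Rᶜ, if u = v then 0 else
        sg ν R u * (sg ν (insert u R) v * tv ι (fun S' R' => tv ι c v S' R') u S R g) := by
    intro u hu
    have h3 : (insert u R)ᶜ = Rᶜ.erase u := by
      ext w
      simp only [mem_compl, mem_insert, mem_erase, not_or]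
    rw [h3, ← sum_erase (s := Rᶜ) (a := u) (f := fun v => if u = v then 0 else
      sg ν R u * (sg ν (insert u R) v * tv ι (fun S' R' => tv ι c v S' R') u S R g)) (by simp)]
    refine sum_congr rfl fun v hv => ?_
    rw [if_neg (ne_of_mem_erase hv).symm]
  rw [sum_congr rfl h2]
  set F : V → V → ℂ := fun u v => if u = v then 0 else
    sg ν R u * (sg ν (insert u R) v * tv ι (fun S' R' => tv ι c v S' R') u S R g) with hF
  have h4 : ∀ u ∈ Rᶜ, ∀ v ∈ Rᶜ, F u v = - F v u := by
    intro u hu v hv
    rw [hF]
    beta_reduce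
    by_cases huv : u = v
    · rw [if_pos huv, if_pos huv.symm, neg_zero]
    · rw [if_neg huv, if_neg (Ne.symm huv), tv_comm hcm hc huv S R g]
      have h5 := sg_swap hν (mem_compl.1 hu) (mem_compl.1 hv) huv
      linear_combination (tv ι (fun S' R' => tv ι c u S' R') v S R g) * h5
  have h6 : ∑ u ∈ Rᶜ, ∑ v ∈ Rᶜ, F u v = - ∑ u ∈ Rᶜ, ∑ v ∈ Rᶜ, F u v := by
    conv_lhs => rw [sum_comm]
    rw [← sum_neg_distrib]
    refine sum_congr rfl fun v hv => ?_
    rw [← sum_neg_distrib]
    exact sum_congr rfl fun u hu => h4 u hu v hv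
  exact self_eq_neg.1 h6

omit [Fintype V] [∀ v, Fintype (H v)] in
theorem IsDavisChain.supp' {c : Finset V → Finset V → A → ℂ} (hc : IsDavisChain G ι i c) :
    ∀ S R g, c S R g ≠ 0 → Disjoint S R ∧ G.IsClique ((S ∪ R : Finset V) : Set V) :=
  fun S R g h => ⟨(hc.supp S R g h).1, (hc.supp S R g h).2.1⟩

omit [DecidableEq V] [Fintype V] [∀ v, Fintype (H v)] in
theorem summable_shift {f : A → ℂ} (hf : Summable fun g => ‖f g‖ ^ 2) (a : A) :
    Summable fun g => ‖f (g * a)‖ ^ 2 :=
  (Equiv.mulRight a).summable_iff.2 hf

omit [DecidableEq V] [Fintype V] [∀ v, Fintype (H v)] [Group A] in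
theorem summable_add {f f' : A → ℂ} (hf : Summable fun g => ‖f g‖ ^ 2)
    (hf' : Summable fun g => ‖f' g‖ ^ 2) : Summable fun g => ‖f g + f' g‖ ^ 2 := by
  refine Summable.of_nonneg_of_le (fun g => sq_nonneg _) (fun g => ?_)
    ((hf.mul_left 2).add (hf'.mul_left 2))
  have h1 := norm_add_le (f g) (f' g)
  have h2 := norm_nonneg (f g + f' g)
  nlinarith [sq_nonneg (‖f g‖ - ‖f' g‖), norm_nonneg (f g), norm_nonneg (f' g)]

omit [DecidableEq V] [Fintype V] [∀ v, Fintype (H v)] [Group A] in
theorem summable_smul (a : ℂ) {f : A → ℂ} (hf : Summable fun g => ‖f g‖ ^ 2) :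
    Summable fun g => ‖a * f g‖ ^ 2 := by
  have h1 : (fun g => ‖a * f g‖ ^ 2) = fun g => ‖a‖ ^ 2 * ‖f g‖ ^ 2 := by
    funext g
    rw [norm_mul, mul_pow]
  rw [h1]
  exact hf.mul_left _

omit [DecidableEq V] [Fintype V] [∀ v, Fintype (H v)] [Group A] in
theorem summable_sum {B : Type} (s : Finset B) (f : B → A → ℂ)
    (hf : ∀ b ∈ s, Summable fun g => ‖f b g‖ ^ 2) : Summable fun g => ‖∑ b ∈ s, f b g‖ ^ 2 := by
  classical
  induction s using Finset.induction_on with
  | empty => simp
  | insert b s hb ih =>
    simp only [sum_insert hb]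
    exact summable_add (hf b (mem_insert_self b s))
      (ih fun b' hb' => hf b' (mem_insert_of_mem hb'))

theorem bdD_chain (hcm : ∀ u v, G.Adj u v → ∀ (x : H u) (y : H v), Commute (ι u x) (ι v y))
    {c : Finset V → Finset V → A → ℂ} (hc : IsDavisChain G ι (i + 1) c) :
    IsDavisChain G ι i (bdD ι ν c) := by
  have hz : ∀ S R g, ¬ (Disjoint S R ∧ G.IsClique ((S ∪ R : Finset V) : Set V)) →
      bdD ι ν c S R g = 0 := by
    intro S R g h
    rw [bdD_eq]
    refine sum_eq_zero fun v hv => ?_
    rw [tv_zero hc.supp' (mem_compl.1 hv) h, mul_zero]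
  refine ⟨fun S R g h => ?_, fun S R u hu x g => ?_, fun S R => ?_⟩
  · have h1 : Disjoint S R ∧ G.IsClique ((S ∪ R : Finset V) : Set V) := by
      by_contra h2
      exact h (hz S R g h2)
    refine ⟨h1.1, h1.2, ?_⟩
    rw [bdD_eq] at h
    obtain ⟨v, hv, h2⟩ := exists_ne_zero_of_sum_ne_zero h
    have h3 := right_ne_zero_of_mul h2
    have hcard := card_insert_of_notMem (mem_compl.1 hv)
    unfold tv at h3
    split_ifs at h3 with h4
    · obtain ⟨x, -, h5⟩ := exists_ne_zero_of_sum_ne_zero h3
      have h6 := (hc.supp _ _ _ h5).2.2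
      omega
    · have h6 := (hc.supp _ _ _ (neg_ne_zero.1 h3)).2.2
      omega
  · by_cases h1 : Disjoint S R ∧ G.IsClique ((S ∪ R : Finset V) : Set V)
    · rw [bdD_eq, bdD_eq]
      refine sum_congr rfl fun v hv => ?_
      congr 1
      unfold tv
      by_cases hv : v ∈ S
      · rw [if_pos hv, if_pos hv]
        by_cases huv : v = u
        · subst huv
          have h2 : ∀ y : H v, c (S.erase v) (insert v R) (g * ι v x * ι v y) =
              c (S.erase v) (insert v R) (g * ι v (x * y)) := by
            intro y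
            rw [map_mul, mul_assoc]
          simp only [h2]
          exact Equiv.sum_comp (Equiv.mulLeft x) fun y => c (S.erase v) (insert v R) (g * ι v y)
        · refine sum_congr rfl fun y _ => ?_
          have hadj : G.Adj u v := h1.2 (by exact_mod_cast mem_union_left R hu)
            (by exact_mod_cast mem_union_left R hv) (Ne.symm huv)
          rw [mul_assoc, (hcm u v hadj x y).eq, ← mul_assoc]
          exact hc.inv _ _ u (mem_erase.2 ⟨Ne.symm huv, hu⟩) x _
      · rw [if_neg hv, if_neg hv, hc.inv S _ u hu x g]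
    · rw [hz S R _ h1, hz S R _ h1]
  · simp only [bdD_eq]
    refine summable_sum _ _ fun v _ => summable_smul _ ?_
    unfold tv
    by_cases hv : v ∈ S
    · simp only [if_pos hv]
      exact summable_sum _ _ fun x _ => summable_shift (hc.l2 _ _) _
    · simp only [if_neg hv, norm_neg]
      exact hc.l2 _ _

/-! ### Elimination of a label from the sets `S` -/

/-- the chain whose boundary eliminates the cubes with `v ∈ S` -/
noncomputable def el (ν : V → ℕ) (v : V) (c : Finset V → Finset V → A → ℂ) (S R : Finset V)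
    (g : A) : ℂ :=
  if v ∈ R ∧ v ∉ S then sg ν (R.erase v) v / (Fintype.card (H v) : ℂ) *
    c (insert v S) (R.erase v) g else 0

/-- the state of the elimination: only labels in `U` occur in `S`, and the means in the directions
outside `U` vanish -/
def Elim (ι : ∀ v, H v →* A) (U : Finset V) (c : Finset V → Finset V → A → ℂ) : Prop :=
  (∀ S R g, c S R g ≠ 0 → S ⊆ U) ∧
    ∀ S R, ∀ v ∈ R, v ∉ U → ∀ g, ∑ x : H v, c S R (g * ι v x) = 0

omit [Fintype V] in
theorem el_chain {c : Finset V → Finset V → A → ℂ} (hc : IsDavisChain G ι i c) (v : V) :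
    IsDavisChain G ι (i + 1) (el (H := H) ν v c) := by
  refine ⟨fun S R g h => ?_, fun S R u hu x g => ?_, fun S R => ?_⟩
  · unfold el at h
    split_ifs at h with h1
    · obtain ⟨h2, h3, h4⟩ := hc.supp _ _ _ (right_ne_zero_of_mul h)
      refine ⟨?_, ?_, ?_⟩
      · rw [disjoint_left] at h2 ⊢
        intro u huS huR
        have huv : u ≠ v := fun h => h1.2 (h ▸ huS)
        exact h2 (mem_insert_of_mem huS) (mem_erase.2 ⟨huv, huR⟩)
      · have h5 : insert v S ∪ R.erase v = S ∪ R := by
          ext u
          simp only [mem_union, mem_erase, mem_insert]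
          constructor
          · rintro ((h | h) | h)
            · exact Or.inr (h ▸ h1.1)
            · exact Or.inl h
            · exact Or.inr h.2
          · rintro (h | h)
            · exact Or.inl (Or.inr h)
            · by_cases huv : u = v
              · exact Or.inl (Or.inl huv)
              · exact Or.inr ⟨huv, h⟩
        rwa [h5] at h3
      · rw [card_erase_of_mem h1.1] at h4
        have := card_pos.2 ⟨v, h1.1⟩
        omega
    · exact absurd rfl h
  · unfold el
    split_ifs with h1
    · rw [hc.inv _ _ u (mem_insert_of_mem hu) x g]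
    · rfl
  · unfold el
    by_cases h1 : v ∈ R ∧ v ∉ S
    · simp only [if_pos h1]
      exact summable_smul _ (hc.l2 _ _)
    · simp only [if_neg h1, norm_zero]
      simp

/-- the boundary of the eliminating chain on the cubes with `v ∈ S` -/
theorem bdD_el {c : Finset V → Finset V → A → ℂ} (hc : IsDavisChain G ι i c) {v : V}
    {S R : Finset V} (hv : v ∈ S) (g : A) :
    bdD ι ν (el (H := H) ν v c) S R g = c S R g := by
  by_cases hR : v ∈ R
  · have h1 : c S R g = 0 := by
      by_contra h
      exact disjoint_left.1 (hc.supp _ _ _ h).1 hv hR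
    rw [h1, bdD_eq]
    refine sum_eq_zero fun w hw => ?_
    have hwv : w ≠ v := fun h => mem_compl.1 hw (h ▸ hR)
    unfold tv
    split_ifs with h2
    · rw [sum_eq_zero fun x _ => ?_, mul_zero]
      unfold el
      rw [if_neg fun h => h.2 (mem_erase.2 ⟨hwv.symm, hv⟩)]
    · unfold el
      rw [if_neg fun h => h.2 hv, neg_zero, mul_zero]
  · rw [bdD_eq, sum_eq_single v]
    · unfold tv
      rw [if_pos hv]
      have h2 : ∀ x : H v, el (H := H) ν v c (S.erase v) (insert v R) (g * ι v x) =
          sg ν R v / (Fintype.card (H v) : ℂ) * c S R g := by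
        intro x
        unfold el
        rw [if_pos ⟨mem_insert_self v R, notMem_erase v S⟩, erase_insert hR, insert_erase hv,
          hc.inv S R v hv x g]
      rw [sum_congr rfl fun x _ => h2 x, sum_const, card_univ, nsmul_eq_mul]
      have h3 : (Fintype.card (H v) : ℂ) ≠ 0 := Nat.cast_ne_zero.2 Fintype.card_ne_zero
      have h4 : sg ν R v * sg ν R v = 1 := by
        unfold sg
        rw [← mul_pow]
        norm_num
      field_simp
      linear_combination (c S R g) * h4
    · intro w hw hwv
      unfold tv
      split_ifs with h2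
      · rw [sum_eq_zero fun x _ => ?_, mul_zero]
        unfold el
        rw [if_neg fun h => h.2 (mem_erase.2 ⟨hwv.symm, hv⟩)]
      · unfold el
        rw [if_neg fun h => h.2 hv, neg_zero, mul_zero]
    · intro h
      exact absurd (mem_compl.2 hR) h

/-- **One step of the elimination.** -/
theorem elim_step (hν : Function.Injective ν)
    (hcm : ∀ u v, G.Adj u v → ∀ (x : H u) (y : H v), Commute (ι u x) (ι v y))
    {c : Finset V → Finset V → A → ℂ} (hc : IsDavisChain G ι i c) (hd : ∀ S R g, bdD ι ν c S R g = 0)
    {U : Finset V} {v : V} (hU : Elim ι (insert v U) c) :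
    ∃ y, IsDavisChain G ι (i + 1) y ∧ IsDavisChain G ι i (fun S R g => c S R g - bdD ι ν y S R g) ∧
      (∀ S R g, bdD ι ν (fun S R g => c S R g - bdD ι ν y S R g) S R g = 0) ∧
      Elim ι U fun S R g => c S R g - bdD ι ν y S R g := by
  set y := el (H := H) ν v c with hy
  have hyc : IsDavisChain G ι (i + 1) y := el_chain hc v
  have hyb : IsDavisChain G ι i (bdD ι ν y) := bdD_chain hcm hyc
  have hcy : IsDavisChain G ι i (fun S R g => c S R g - bdD ι ν y S R g) := by
    refine ⟨fun S R g h => ?_, fun S R u hu x g => ?_, fun S R => ?_⟩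
    · by_cases h1 : c S R g = 0
      · refine hyb.supp S R g fun h2 => h ?_
        beta_reduce
        rw [h1, h2, sub_zero]
      · exact hc.supp S R g h1
    · beta_reduce
      rw [hc.inv S R u hu x g, hyb.inv S R u hu x g]
    · have h1 := summable_add (hc.l2 S R) (summable_smul (-1) (hyb.l2 S R))
      simpa only [neg_mul, one_mul, ← sub_eq_add_neg] using h1
  have hdy : ∀ S R g, bdD ι ν (fun S R g => c S R g - bdD ι ν y S R g) S R g = 0 := by
    intro S R g
    have h1 : bdD ι ν (fun S R g => c S R g - bdD ι ν y S R g) S R g =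
        bdD ι ν c S R g - bdD ι ν (bdD ι ν y) S R g := by
      unfold bdD
      rw [← sum_sub_distrib]
      refine sum_congr rfl fun w _ => ?_
      rw [← mul_sub]
      congr 1
      split_ifs with h
      · rw [← sum_sub_distrib]
      · ring
    rw [h1, hd, bdD_bdD hν hcm hyc.supp', sub_zero]
  -- no label `v` in `S`
  have hnv : ∀ S R g, v ∈ S → c S R g - bdD ι ν y S R g = 0 := by
    intro S R g hv
    rw [hy, bdD_el hc hv, sub_self]
  refine ⟨y, hyc, hcy, hdy, fun S R g h => ?_, fun S R w hw hwU g => ?_⟩
  · -- the labels of `S`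
    have h1 : S ⊆ insert v U := by
      by_contra h2
      obtain ⟨w, hwS, hwU⟩ := not_subset.1 h2
      refine h ?_
      beta_reduce
      have h3 : c S R g = 0 := by
        by_contra h4
        exact hwU (hU.1 S R g h4 hwS)
      rw [h3, zero_sub, neg_eq_zero, bdD_eq]
      refine sum_eq_zero fun u hu => ?_
      have h5 : tv ι y u S R g = 0 := by
        unfold tv
        split_ifs with h6
        · by_cases huw : u = w
          · subst huw
            have h7 : ∀ x : H u, y (S.erase u) (insert u R) (g * ι u x) =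
                if v ∈ insert u R ∧ v ∉ S.erase u then
                  sg ν ((insert u R).erase v) v / (Fintype.card (H v) : ℂ) *
                    c (insert v (S.erase u)) ((insert u R).erase v) (g * ι u x) else 0 :=
              fun x => rfl
            rw [sum_congr rfl fun x _ => h7 x]
            split_ifs with h8
            · rw [← mul_sum, hU.2 _ _ u ?_ hwU g, mul_zero]
              have huv : u ≠ v := fun h => hwU (h ▸ mem_insert_self v U)
              exact mem_erase.2 ⟨huv, mem_insert_self u R⟩
            · simp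
          · refine sum_eq_zero fun x _ => ?_
            show (if v ∈ insert u R ∧ v ∉ S.erase u then
                  sg ν ((insert u R).erase v) v / (Fintype.card (H v) : ℂ) *
                    c (insert v (S.erase u)) ((insert u R).erase v) (g * ι u x) else 0) = 0
            split_ifs with h8
            · have h9 : c (insert v (S.erase u)) ((insert u R).erase v) (g * ι u x) = 0 := by
                by_contra h10
                exact hwU (hU.1 _ _ _ h10 (mem_insert_of_mem (mem_erase.2 ⟨Ne.symm huw, hwS⟩)))
              rw [h9, mul_zero]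
            · rfl
        · rw [neg_eq_zero]
          show (if v ∈ insert u R ∧ v ∉ S then
                  sg ν ((insert u R).erase v) v / (Fintype.card (H v) : ℂ) *
                    c (insert v S) ((insert u R).erase v) g else 0) = 0
          split_ifs with h8
          · have h9 : c (insert v S) ((insert u R).erase v) g = 0 := by
              by_contra h10
              exact hwU (hU.1 _ _ _ h10 (mem_insert_of_mem hwS))
            rw [h9, mul_zero]
          · rfl
      rw [h5, mul_zero]
    intro w hw
    rcases mem_insert.1 (h1 hw) with h2 | h2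
    · subst h2
      exact absurd (hnv S R g hw) h
    · exact h2
  · -- the means
    by_cases hvS : v ∈ S
    · exact sum_eq_zero fun x _ => hnv S R _ hvS
    by_cases hwv : w = v
    · subst hwv
      have h1 := hdy (insert w S) (R.erase w) g
      rw [bdD_eq, sum_eq_single w] at h1
      · unfold tv at h1
        rw [if_pos (mem_insert_self w S), erase_insert hvS, insert_erase hw] at h1
        refine (mul_eq_zero.1 h1).resolve_left ?_
        unfold sg
        exact pow_ne_zero _ (by norm_num)
      · intro u _ huw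
        unfold tv
        split_ifs with h2
        · rw [sum_eq_zero fun x _ => ?_, mul_zero]
          exact hnv _ _ _ (mem_erase.2 ⟨Ne.symm huw, mem_insert_self w S⟩)
        · beta_reduce
          rw [hnv _ _ _ (mem_insert_self w S), neg_zero, mul_zero]
      · intro h
        exact absurd (mem_compl.2 (notMem_erase w R)) h
    · -- `w ∈ R` is different from `v`
      have hwU' : w ∉ insert v U := fun h => by
        rcases mem_insert.1 h with h | h
        · exact hwv h
        · exact hwU h
      have hym : ∀ S R g, w ∈ R → ∑ x : H w, y S R (g * ι w x) = 0 := by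
        intro S R g hwR
        have h7 : ∀ x : H w, y S R (g * ι w x) = if v ∈ R ∧ v ∉ S then
                  sg ν (R.erase v) v / (Fintype.card (H v) : ℂ) *
                    c (insert v S) (R.erase v) (g * ι w x) else 0 := fun x => rfl
        rw [sum_congr rfl fun x _ => h7 x]
        split_ifs with h8
        · rw [← mul_sum, hU.2 _ _ w (mem_erase.2 ⟨hwv, hwR⟩) hwU' g, mul_zero]
        · simp
      rw [sum_sub_distrib, hU.2 S R w hw hwU' g, zero_sub, neg_eq_zero]
      by_cases h1 : Disjoint S R ∧ G.IsClique ((S ∪ R : Finset V) : Set V)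
      · simp only [bdD_eq]
        rw [sum_comm]
        refine sum_eq_zero fun u hu => ?_
        rw [← mul_sum]
        have h2 : ∑ x : H w, tv ι y u S R (g * ι w x) = 0 := by
          unfold tv
          split_ifs with h3
          · rw [sum_comm]
            refine sum_eq_zero fun x' _ => ?_
            have huw : u ≠ w := fun h => mem_compl.1 hu (h ▸ hw)
            have hadj : G.Adj w u := h1.2 (by exact_mod_cast mem_union_right S hw)
              (by exact_mod_cast mem_union_left R h3) (Ne.symm huw)
            have h4 : ∀ x : H w, g * ι w x * ι u x' = g * ι u x' * ι w x := by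
              intro x
              rw [mul_assoc, (hcm w u hadj x x').eq, ← mul_assoc]
            simp only [h4]
            exact hym _ _ _ (mem_insert_of_mem hw)
          · rw [sum_neg_distrib, hym _ _ _ (mem_insert_of_mem hw), neg_zero]
        rw [h2, mul_zero]
      · refine sum_eq_zero fun x _ => ?_
        by_contra h2
        exact h1 ⟨(hyb.supp _ _ _ h2).1, (hyb.supp _ _ _ h2).2.1⟩

theorem bdD_add (c c' : Finset V → Finset V → A → ℂ) (S R : Finset V) (g : A) :
    bdD ι ν (fun S R g => c S R g + c' S R g) S R g = bdD ι ν c S R g + bdD ι ν c' S R g := by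
  unfold bdD
  rw [← sum_add_distrib]
  refine sum_congr rfl fun w _ => ?_
  rw [← mul_add]
  congr 1
  split_ifs with h
  · rw [← sum_add_distrib]
  · ring

omit [Fintype V] [∀ v, Fintype (H v)] in
theorem IsDavisChain.add {c c' : Finset V → Finset V → A → ℂ} (hc : IsDavisChain G ι i c)
    (hc' : IsDavisChain G ι i c') : IsDavisChain G ι i (fun S R g => c S R g + c' S R g) := by
  refine ⟨fun S R g h => ?_, fun S R u hu x g => ?_, fun S R => summable_add (hc.l2 S R) (hc'.l2 S R)⟩
  · by_cases h1 : c S R g = 0
    · refine hc'.supp S R g fun h2 => h ?_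
      beta_reduce
      rw [h1, h2, add_zero]
    · exact hc.supp S R g h1
  · beta_reduce
    rw [hc.inv S R u hu x g, hc'.inv S R u hu x g]

/-- **The elimination.** -/
theorem elim_all (hν : Function.Injective ν)
    (hcm : ∀ u v, G.Adj u v → ∀ (x : H u) (y : H v), Commute (ι u x) (ι v y)) (U : Finset V)
    (c : Finset V → Finset V → A → ℂ) (hc : IsDavisChain G ι i c)
    (hd : ∀ S R g, bdD ι ν c S R g = 0) (hU : Elim ι U c) :
    ∃ y, IsDavisChain G ι (i + 1) y ∧ IsDavisChain G ι i (fun S R g => c S R g - bdD ι ν y S R g) ∧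
      (∀ S R g, bdD ι ν (fun S R g => c S R g - bdD ι ν y S R g) S R g = 0) ∧
      Elim ι ∅ fun S R g => c S R g - bdD ι ν y S R g := by
  induction U using Finset.induction_on generalizing c with
  | empty =>
    have h0 : ∀ S R g, bdD ι ν (fun _ _ _ => (0 : ℂ)) S R g = (0 : ℂ) := by
      intro S R g
      unfold bdD
      refine sum_eq_zero fun v _ => ?_
      split_ifs <;> simp
    refine ⟨fun _ _ _ => 0, ⟨fun S R g h => absurd rfl h, fun S R v _ x g => rfl, fun S R => by
      simpa using summable_zero⟩, ?_, ?_, ?_⟩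
    · simpa only [h0, sub_zero] using hc
    · simpa only [h0, sub_zero] using hd
    · simpa only [h0, sub_zero] using hU
  | insert v U _ ih =>
    obtain ⟨y, hy, hcy, hdy, hey⟩ := elim_step hν hcm hc hd hU
    obtain ⟨y', hy', hcy', hdy', hey'⟩ := ih _ hcy hdy hey
    have h1 : (fun S R g => c S R g - bdD ι ν (fun S R g => y S R g + y' S R g) S R g) =
        fun S R g => (c S R g - bdD ι ν y S R g) - bdD ι ν y' S R g := by
      funext S R g
      rw [bdD_add]
      ring
    refine ⟨fun S R g => y S R g + y' S R g, hy.add hy', ?_, ?_, ?_⟩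
    · rw [h1]
      exact hcy'
    · rw [h1]
      exact hdy'
    · rw [h1]
      exact hey'

/-- **Reduced chains compute the reduced `ℓ²`-homology of the Davis complex.** -/
theorem l2zeroD_of_mod
    (hcm : ∀ u v, G.Adj u v → ∀ (x : H u) (y : H v), Commute (ι u x) (ι v y))
    (h : L2ZeroMod G ι i) : L2ZeroD G ι i := by
  intro ν hν z hz hdz ε hε
  obtain ⟨Y, hY, hcY, hdY, heY⟩ := elim_all (ι := ι) hν hcm univ z hz hdz
    ⟨fun S R g _ => subset_univ S, fun S R v _ hv => absurd (mem_univ v) hv⟩
  set c : Finset V → Finset V → A → ℂ := fun S R g => z S R g - bdD ι ν Y S R g with hc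
  have hcS : ∀ S R g, S ≠ ∅ → c S R g = 0 := by
    intro S R g hS
    by_contra h1
    exact hS (subset_empty.1 (heY.1 S R g h1))
  have hf : IsModelChain G ι i fun T g => c ∅ T g := by
    refine ⟨fun T g h1 => ?_, fun T v hv g => heY.2 ∅ T v hv (notMem_empty v) g, fun T => hcY.l2 ∅ T⟩
    obtain ⟨-, h3, h4⟩ := hcY.supp ∅ T g h1
    rw [empty_union] at h3
    exact ⟨h3, h4⟩
  have hdf : ∀ T g, bdMod ν (fun T g => c ∅ T g) T g = 0 := by
    intro T g
    have h1 := hdY ∅ T g
    unfold bdD at h1
    unfold bdMod
    simp only [notMem_empty, if_false, mul_neg, sum_neg_distrib, neg_eq_zero] at h1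
    exact h1
  obtain ⟨y, hy, hlt⟩ := h ν hν _ hf hdf ε hε
  set η : Finset V → Finset V → A → ℂ := fun S R g => if S = ∅ then -y R g else 0 with hη
  have hη0 : ∀ R g, η ∅ R g = -y R g := fun R g => if_pos rfl
  have hηS : ∀ S R g, S ≠ ∅ → η S R g = 0 := fun S R g hS => if_neg hS
  have hηc : IsDavisChain G ι (i + 1) η := by
    refine ⟨fun S R g h1 => ?_, fun S R v hv x g => ?_, fun S R => ?_⟩
    · by_cases hS : S = ∅
      · subst hS
        rw [hη0, neg_ne_zero] at h1
        obtain ⟨h3, h4⟩ := hy.supp R g h1
        refine ⟨disjoint_empty_left R, ?_, h4⟩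
        rw [empty_union]
        exact h3
      · exact absurd (hηS S R g hS) h1
    · have hS : S ≠ ∅ := ne_empty_of_mem hv
      rw [hηS S R _ hS, hηS S R _ hS]
    · by_cases hS : S = ∅
      · subst hS
        simp only [hη0, norm_neg]
        exact hy.l2 R
      · simp only [hηS S R _ hS, norm_zero]
        simpa using summable_zero
  have hb0 : ∀ R g, bdD ι ν η ∅ R g = bdMod ν y R g := by
    intro R g
    unfold bdD bdMod
    refine sum_congr rfl fun v _ => ?_
    rw [if_neg (notMem_empty v), hη0, neg_neg]
  have hbS : ∀ S R g, S ≠ ∅ → bdD ι ν η S R g = 0 := by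
    intro S R g hS
    unfold bdD
    refine sum_eq_zero fun v _ => ?_
    split_ifs with h1
    · by_cases h2 : S.erase v = ∅
      · simp only [h2, hη0, sum_neg_distrib]
        rw [hy.mean (insert v R) v (mem_insert_self v R) g, neg_zero, mul_zero]
      · simp only [hηS _ _ _ h2, sum_const_zero, mul_zero]
    · rw [hηS _ _ _ hS, neg_zero, mul_zero]
  refine ⟨fun S R g => Y S R g + η S R g, hY.add hηc, ?_⟩
  have h1 : ∀ S R g, z S R g - bdD ι ν (fun S R g => Y S R g + η S R g) S R g =
      c S R g - bdD ι ν η S R g := by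
    intro S R g
    rw [bdD_add, hc]
    ring
  simp only [h1]
  rw [sum_eq_single ∅]
  · simp only [hb0]
    exact hlt
  · intro S _ hS
    refine sum_eq_zero fun R _ => ?_
    simp only [hcS S R _ hS, hbS S R _ hS, sub_zero, norm_zero]
    simp
  · intro h2
    exact absurd (mem_univ _) h2

end

end Pool.Agent.H85.DV
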