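import Pool.Agent.H85.DV.Davis

/-!
# Graph products of finite and infinite cyclic groups: the cube complex and its reduced chains

`A` is a group, `F` the set of the vertices with finite groups `H v` (homomorphisms `ι v : H v →* A`), every other
vertex `v` has an element `t v` of `A`. The complex: Davis complex in the directions `v ∈ F`, Salvetti complex in the
other directions.
-/

set_option autoImplicit false

open Finset

namespace Pool.Agent.H85.DV

section

variable {V : Type} [DecidableEq V] [Fintype V]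
  {A : Type} [Group A] {H : V → Type} [∀ v, Group (H v)]

/-- Cellular `ℓ²`-chains of degree `i`. The vertices of the cube complex are the cosets `g A_S`, `S ⊆ F` a clique,
`A_S` the subgroup generated by the images of the `H v`, `v ∈ S`. The cubes are the `(S, R, g)`, `S ⊆ F` and `R` disjoint,
`S ∪ R` a clique, of dimension `|R|`: the vertices of this cube are the `g x A_(S ∪ R')`, `x` the product of the `t v` with
`v` in a subset of `R \ F`, `R' ⊆ R ∩ F`. `c S R g` is the coefficient of this cube. -/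
structure IsMixChain (G : SimpleGraph V) (F : Finset V) (ι : ∀ v, H v →* A) (i : ℕ)
    (c : Finset V → Finset V → A → ℂ) : Prop where
  supp : ∀ S R g, c S R g ≠ 0 →
    S ⊆ F ∧ Disjoint S R ∧ G.IsClique ((S ∪ R : Finset V) : Set V) ∧ R.card = i
  inv : ∀ S R, ∀ v ∈ S, ∀ (x : H v) (g : A), c S R (g * ι v x) = c S R g
  l2 : ∀ S R, Summable fun g => ‖c S R g‖ ^ 2

/-- The cellular boundary: the boundary of the cube `(S, R, g)` is the sum over `v ∈ R` of the sign of `v` times the
difference of the faces `(S ∪ {v}, R \ {v}, g)` and `(S, R \ {v}, g)`, `v ∈ F`, respectively `(S, R \ {v}, g t_v)` and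
`(S, R \ {v}, g)`, `v ∉ F`. -/
noncomputable def bdMix (F : Finset V) (ι : ∀ v, H v →* A) (t : V → A) (ν : V → ℕ)
    (c : Finset V → Finset V → A → ℂ) (S R : Finset V) (g : A) : ℂ :=
  ∑ v ∈ Rᶜ, sg ν R v *
    (if v ∈ F then
      (if v ∈ S then ∑ᶠ x : H v, c (S.erase v) (insert v R) (g * ι v x) else -c S (insert v R) g)
    else c S (insert v R) (g * (t v)⁻¹) - c S (insert v R) g)

/-- every `ℓ²`-cycle is an `ℓ²`-limit of boundaries of `ℓ²`-chains -/
def L2ZeroMix (G : SimpleGraph V) (F : Finset V) (ι : ∀ v, H v →* A) (t : V → A) (i : ℕ) : Prop :=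
  ∀ ν : V → ℕ, Function.Injective ν → ∀ z : Finset V → Finset V → A → ℂ, IsMixChain G F ι i z →
    (∀ S R g, bdMix F ι t ν z S R g = 0) → ∀ ε : ℝ, 0 < ε → ∃ y : Finset V → Finset V → A → ℂ,
      IsMixChain G F ι (i + 1) y ∧ ∑ S, ∑ R, ∑' g, ‖z S R g - bdMix F ι t ν y S R g‖ ^ 2 < ε

/-- Reduced chains. -/
structure IsMixModel (G : SimpleGraph V) (F : Finset V) (ι : ∀ v, H v →* A) (i : ℕ)
    (f : Finset V → A → ℂ) : Prop where
  supp : ∀ T g, f T g ≠ 0 → G.IsClique (T : Set V) ∧ T.card = i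
  mean : ∀ T, ∀ v ∈ T, v ∈ F → ∀ g : A, ∑ᶠ x : H v, f T (g * ι v x) = 0
  l2 : ∀ T, Summable fun g => ‖f T g‖ ^ 2

/-- the boundary of reduced chains -/
noncomputable def bdMixMod (F : Finset V) (t : V → A) (ν : V → ℕ) (f : Finset V → A → ℂ)
    (T : Finset V) (g : A) : ℂ :=
  ∑ v ∈ Tᶜ, sg ν T v *
    (if v ∈ F then f (insert v T) g else f (insert v T) g - f (insert v T) (g * (t v)⁻¹))

/-- every reduced `ℓ²`-cycle of degree `i` is an `ℓ²`-limit of boundaries of reduced `ℓ²`-chains -/
def L2ZeroMixMod (G : SimpleGraph V) (F : Finset V) (ι : ∀ v, H v →* A) (t : V → A) (i : ℕ) :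
    Prop :=
  ∀ ν : V → ℕ, Function.Injective ν → ∀ z : Finset V → A → ℂ, IsMixModel G F ι i z →
    (∀ T g, bdMixMod F t ν z T g = 0) → ∀ ε : ℝ, 0 < ε → ∃ y : Finset V → A → ℂ,
      IsMixModel G F ι (i + 1) y ∧ ∑ T, ∑' g, ‖z T g - bdMixMod F t ν y T g‖ ^ 2 < ε

end

end Pool.Agent.H85.DV
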