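import Pool.Agent.H85.DV.MixDefs

/-!
# Graph products of finite and infinite cyclic groups: reduced chains compute the reduced `ℓ²`-homology

The labels of `F` are eliminated from the sets `S` one after the other, as in H85/DV/Davis; the other directions are
spectators.
-/

set_option autoImplicit false
set_option linter.unusedSectionVars false

open Finset

namespace Pool.Agent.H85.DV

variable {V : Type} [DecidableEq V] [Fintype V]
  {A : Type} [Group A] {H : V → Type} [∀ v, Group (H v)]
  {G : SimpleGraph V} {F : Finset V} {ι : ∀ v, H v →* A} {t : V → A} {i : ℕ} {ν : V → ℕ}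

namespace Mix

/-! ### The sums over cosets -/

/-- the sum over a coset -/
noncomputable def E (ι : ∀ v, H v →* A) (v : V) (f : A → ℂ) (g : A) : ℂ := ∑ᶠ x : H v, f (g * ι v x)

theorem E_eq {v : V} [Fintype (H v)] (f : A → ℂ) (g : A) : E ι v f g = ∑ x : H v, f (g * ι v x) :=
  finsum_eq_sum_of_fintype _

theorem E_eq_zero {v : V} {f : A → ℂ} {g : A} (h : ∀ x : H v, f (g * ι v x) = 0) :
    E ι v f g = 0 := by
  unfold E
  exact finsum_eq_zero_of_forall_eq_zero h

theorem exists_of_E_ne {v : V} {f : A → ℂ} {g : A} (h : E ι v f g ≠ 0) :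
    ∃ x : H v, f (g * ι v x) ≠ 0 := by
  by_contra hn
  push Not at hn
  exact h (E_eq_zero hn)

theorem E_mul {v : V} (hv : Finite (H v)) (a : ℂ) (f : A → ℂ) (g : A) :
    E ι v (fun g => a * f g) g = a * E ι v f g := by
  have := Fintype.ofFinite (H v)
  rw [E_eq, E_eq, mul_sum]

theorem E_neg {v : V} (hv : Finite (H v)) (f : A → ℂ) (g : A) :
    E ι v (fun g => -f g) g = -E ι v f g := by
  have := Fintype.ofFinite (H v)
  rw [E_eq, E_eq, sum_neg_distrib]

theorem E_add {v : V} (hv : Finite (H v)) (f f' : A → ℂ) (g : A) :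
    E ι v (fun g => f g + f' g) g = E ι v f g + E ι v f' g := by
  have := Fintype.ofFinite (H v)
  rw [E_eq, E_eq, E_eq, sum_add_distrib]

theorem E_sub {v : V} (hv : Finite (H v)) (f f' : A → ℂ) (g : A) :
    E ι v (fun g => f g - f' g) g = E ι v f g - E ι v f' g := by
  have := Fintype.ofFinite (H v)
  rw [E_eq, E_eq, E_eq, sum_sub_distrib]

theorem E_sum {v : V} (hv : Finite (H v)) {B : Type} (s : Finset B) (f : B → A → ℂ) (g : A) :
    E ι v (fun g => ∑ b ∈ s, f b g) g = ∑ b ∈ s, E ι v (f b) g := by
  have := Fintype.ofFinite (H v)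
  simp only [E_eq]
  exact sum_comm

theorem E_comm {u v : V} (hu : Finite (H u)) (hv : Finite (H v))
    (hc : ∀ (x : H u) (y : H v), Commute (ι u x) (ι v y)) (f : A → ℂ) (g : A) :
    E ι u (E ι v f) g = E ι v (E ι u f) g := by
  have := Fintype.ofFinite (H u)
  have := Fintype.ofFinite (H v)
  simp only [E_eq]
  rw [sum_comm]
  refine sum_congr rfl fun y _ => sum_congr rfl fun x _ => ?_
  rw [mul_assoc, (hc x y).eq, ← mul_assoc]

theorem E_shift {v : V} {a : A} (hc : ∀ x : H v, Commute (ι v x) a) (f : A → ℂ) (g : A) :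
    E ι v (fun g => f (g * a)) g = E ι v f (g * a) := by
  unfold E
  refine finsum_congr fun x => ?_
  beta_reduce
  rw [mul_assoc, (hc x).eq, ← mul_assoc]

theorem E_inv {v : V} (f : A → ℂ) (g : A) (x : H v) : E ι v f (g * ι v x) = E ι v f g := by
  unfold E
  have h1 : ∀ y : H v, f (g * ι v x * ι v y) = f (g * ι v (Equiv.mulLeft x y)) := by
    intro y
    rw [Equiv.coe_mulLeft, map_mul, mul_assoc]
  rw [finsum_congr h1]
  exact finsum_comp_equiv (Equiv.mulLeft x) (f := fun y => f (g * ι v y))

theorem E_const {v : V} (hv : Finite (H v)) {f : A → ℂ} {g : A}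
    (h : ∀ x : H v, f (g * ι v x) = f g) : E ι v f g = (Nat.card (H v) : ℂ) * f g := by
  have := Fintype.ofFinite (H v)
  rw [E_eq, sum_congr rfl fun x _ => h x, sum_const, card_univ, nsmul_eq_mul, Nat.card_eq_fintype_card]

theorem E_l2 {v : V} (hv : Finite (H v)) {f : A → ℂ} (hf : Summable fun g => ‖f g‖ ^ 2) :
    Summable fun g => ‖E ι v f g‖ ^ 2 := by
  have := Fintype.ofFinite (H v)
  simp only [E_eq]
  exact summable_sum _ _ fun x _ => summable_shift hf _

/-! ### The directions -/

/-- one direction of the boundary -/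
noncomputable def tm (F : Finset V) (ι : ∀ v, H v →* A) (t : V → A)
    (c : Finset V → Finset V → A → ℂ) (v : V) (S R : Finset V) (g : A) : ℂ :=
  if v ∈ F then (if v ∈ S then E ι v (c (S.erase v) (insert v R)) g else -c S (insert v R) g)
  else c S (insert v R) (g * (t v)⁻¹) - c S (insert v R) g

theorem tm_S {c : Finset V → Finset V → A → ℂ} {v : V} {S R : Finset V} (hF : v ∈ F) (hS : v ∈ S)
    (g : A) : tm F ι t c v S R g = E ι v (c (S.erase v) (insert v R)) g := by
  unfold tm
  rw [if_pos hF, if_pos hS]

theorem tm_nS {c : Finset V → Finset V → A → ℂ} {v : V} {S R : Finset V} (hF : v ∈ F) (hS : v ∉ S)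
    (g : A) : tm F ι t c v S R g = -c S (insert v R) g := by
  unfold tm
  rw [if_pos hF, if_neg hS]

theorem tm_nF {c : Finset V → Finset V → A → ℂ} {v : V} {S R : Finset V} (hF : v ∉ F)
    (g : A) : tm F ι t c v S R g = c S (insert v R) (g * (t v)⁻¹) - c S (insert v R) g := by
  unfold tm
  rw [if_neg hF]

theorem bdMix_eq (c : Finset V → Finset V → A → ℂ) (S R : Finset V) (g : A) :
    bdMix F ι t ν c S R g = ∑ v ∈ Rᶜ, sg ν R v * tm F ι t c v S R g := rfl

/-- the allowed pairs -/
def Al (G : SimpleGraph V) (F S R : Finset V) : Prop :=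
  S ⊆ F ∧ Disjoint S R ∧ G.IsClique ((S ∪ R : Finset V) : Set V)

theorem al_of_erase {v : V} {S R : Finset V} (hvF : v ∈ F) (hvS : v ∈ S) (hvR : v ∉ R)
    (h : Al G F (S.erase v) (insert v R)) : Al G F S R := by
  obtain ⟨h0, h1, h2⟩ := h
  refine ⟨fun u hu => ?_, ?_, ?_⟩
  · by_cases huv : u = v
    · exact huv ▸ hvF
    · exact h0 (mem_erase.2 ⟨huv, hu⟩)
  · rw [disjoint_left] at h1 ⊢
    intro u huS huR
    have huv : u ≠ v := fun h => hvR (h ▸ huR)
    exact h1 (mem_erase.2 ⟨huv, huS⟩) (mem_insert_of_mem huR)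
  · have h3 : S.erase v ∪ insert v R = S ∪ R := by
      ext u
      simp only [mem_union, mem_erase, mem_insert]
      constructor
      · rintro (h | h | h)
        · exact Or.inl h.2
        · exact Or.inl (h ▸ hvS)
        · exact Or.inr h
      · rintro (h | h)
        · by_cases huv : u = v
          · exact Or.inr (Or.inl huv)
          · exact Or.inl ⟨huv, h⟩
        · exact Or.inr (Or.inr h)
    rwa [h3] at h2

theorem al_of_insert {v : V} {S R : Finset V} (h : Al G F S (insert v R)) : Al G F S R := by
  obtain ⟨h0, h1, h2⟩ := h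
  refine ⟨h0, h1.mono_right (subset_insert v R), h2.subset ?_⟩
  exact_mod_cast union_subset_union_right (subset_insert v R)

/-- the support -/
theorem tm_zero {c : Finset V → Finset V → A → ℂ} (hc : ∀ S R g, c S R g ≠ 0 → Al G F S R)
    {v : V} {S R : Finset V} (hv : v ∉ R) (h : ¬ Al G F S R) (g : A) : tm F ι t c v S R g = 0 := by
  have h1 : ∀ g, c S (insert v R) g = 0 := by
    intro g
    by_contra h0
    exact h (al_of_insert (hc _ _ _ h0))
  by_cases hF : v ∈ F
  · by_cases hS : v ∈ S
    · rw [tm_S hF hS]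
      refine E_eq_zero fun x => ?_
      by_contra h0
      exact h (al_of_erase hF hS hv (hc _ _ _ h0))
    · rw [tm_nS hF hS, h1, neg_zero]
  · rw [tm_nF hF, h1, h1, sub_zero]

/-- the hypotheses on the group -/
structure Hyp (G : SimpleGraph V) (F : Finset V) (ι : ∀ v, H v →* A) (t : V → A) : Prop where
  fin : ∀ v ∈ F, Finite (H v)
  cm : ∀ u v, G.Adj u v → u ∈ F → v ∈ F → ∀ (x : H u) (y : H v), Commute (ι u x) (ι v y)
  ct : ∀ u v, G.Adj u v → u ∈ F → v ∉ F → ∀ x : H u, Commute (ι u x) (t v)
  tt : ∀ u v, G.Adj u v → u ∉ F → v ∉ F → Commute (t u) (t v)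

private theorem zero_of_not_adj {c : Finset V → Finset V → A → ℂ}
    (hc : ∀ S R g, c S R g ≠ 0 → Al G F S R) {u v : V} (huv : u ≠ v) (hadj : ¬ G.Adj u v)
    (S R : Finset V) (g : A) : c S (insert v (insert u R)) g = 0 := by
  by_contra h0
  obtain ⟨-, -, h4⟩ := hc _ _ _ h0
  refine hadj (h4 ?_ ?_ huv)
  · simp
  · simp

private theorem tm_comm_aux (hy : Hyp G F ι t)
    {c : Finset V → Finset V → A → ℂ} (hc : ∀ S R g, c S R g ≠ 0 → Al G F S R) {u v : V}
    (huv : u ≠ v) (hu : u ∈ F) (S R : Finset V) (g : A) :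
    tm F ι t (fun S' R' => tm F ι t c v S' R') u S R g =
      tm F ι t (fun S' R' => tm F ι t c u S' R') v S R g := by
  have hvu : v ≠ u := huv.symm
  have hins : insert u (insert v R) = insert v (insert u R) := Finset.insert_comm u v R
  have hz := fun hadj S' g => zero_of_not_adj hc huv hadj S' R g
  have hfu := hy.fin u hu
  by_cases hv : v ∈ F
  · have hfv := hy.fin v hv
    by_cases huS : u ∈ S
    · by_cases hvS : v ∈ S
      · rw [tm_S hu huS, tm_S hv hvS]
        have h1 : (fun g => tm F ι t c v (S.erase u) (insert u R) g) =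
            E ι v (c ((S.erase u).erase v) (insert v (insert u R))) := by
          funext g
          exact tm_S hv (mem_erase.2 ⟨hvu, hvS⟩) g
        have h2 : (fun g => tm F ι t c u (S.erase v) (insert v R) g) =
            E ι u (c ((S.erase u).erase v) (insert v (insert u R))) := by
          funext g
          rw [tm_S hu (mem_erase.2 ⟨huv, huS⟩) g, hins, erase_right_comm]
        have h1' : tm F ι t c v (S.erase u) (insert u R) = _ := h1
        have h2' : tm F ι t c u (S.erase v) (insert v R) = _ := h2
        beta_reduce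
        rw [h1', h2']
        by_cases hadj : G.Adj u v
        · exact E_comm hfu hfv (hy.cm u v hadj hu hv) _ g
        · rw [E_eq_zero fun x => E_eq_zero fun y => hz hadj _ _,
            E_eq_zero fun x => E_eq_zero fun y => hz hadj _ _]
      · rw [tm_S hu huS, tm_nS hv hvS, tm_S hu huS, hins]
        have h1 : tm F ι t c v (S.erase u) (insert u R) =
            fun g => -c (S.erase u) (insert v (insert u R)) g := by
          funext g
          exact tm_nS hv (fun h => hvS (mem_of_mem_erase h)) g
        beta_reduce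
        rw [h1, E_neg hfu]
    · by_cases hvS : v ∈ S
      · rw [tm_nS hu huS, tm_S hv hvS, tm_S hv hvS]
        have h1 : tm F ι t c u (S.erase v) (insert v R) =
            fun g => -c (S.erase v) (insert v (insert u R)) g := by
          funext g
          rw [tm_nS hu (fun h => huS (mem_of_mem_erase h)) g, hins]
        beta_reduce
        rw [h1, E_neg hfv]
      · rw [tm_nS hu huS, tm_nS hv hvS, tm_nS hv hvS, tm_nS hu huS, hins]
  · by_cases huS : u ∈ S
    · rw [tm_S hu huS, tm_nF hv, tm_S hu huS, tm_S hu huS, hins]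
      have h1 : tm F ι t c v (S.erase u) (insert u R) =
          fun g => c (S.erase u) (insert v (insert u R)) (g * (t v)⁻¹) -
            c (S.erase u) (insert v (insert u R)) g := by
        funext g
        exact tm_nF hv g
      beta_reduce
      rw [h1, E_sub hfu]
      by_cases hadj : G.Adj u v
      · rw [E_shift fun x => (hy.ct u v hadj hu hv x).inv_right]
      · have h2 : ∀ g, E ι u (c (S.erase u) (insert v (insert u R))) g = 0 :=
          fun g => E_eq_zero fun x => hz hadj _ _
        have h3 : E ι u (fun g => c (S.erase u) (insert v (insert u R)) (g * (t v)⁻¹)) g = 0 :=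
          E_eq_zero fun x => hz hadj _ _
        rw [h2, h2, h3]
    · rw [tm_nS hu huS, tm_nF hv, tm_nF hv, tm_nS hu huS, tm_nS hu huS, hins]
      ring

/-- the directions commute -/
theorem tm_comm (hy : Hyp G F ι t)
    {c : Finset V → Finset V → A → ℂ} (hc : ∀ S R g, c S R g ≠ 0 → Al G F S R) {u v : V}
    (huv : u ≠ v) (S R : Finset V) (g : A) :
    tm F ι t (fun S' R' => tm F ι t c v S' R') u S R g =
      tm F ι t (fun S' R' => tm F ι t c u S' R') v S R g := by
  by_cases hu : u ∈ F
  · exact tm_comm_aux hy hc huv hu S R g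
  by_cases hv : v ∈ F
  · exact (tm_comm_aux hy hc huv.symm hv S R g).symm
  have hins : insert u (insert v R) = insert v (insert u R) := Finset.insert_comm u v R
  have hz := fun hadj S' g => zero_of_not_adj hc huv hadj S' R g
  rw [tm_nF hu, tm_nF hv, tm_nF hv, tm_nF hv, tm_nF hu, tm_nF hu, hins]
  by_cases hadj : G.Adj u v
  · have h1 : g * (t u)⁻¹ * (t v)⁻¹ = g * (t v)⁻¹ * (t u)⁻¹ := by
      rw [mul_assoc, mul_assoc, ((hy.tt u v hadj hu hv).inv_inv).eq]
    rw [h1]
    ring
  · simp only [hz hadj]

theorem bd_bd (hν : Function.Injective ν) (hy : Hyp G F ι t)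
    {c : Finset V → Finset V → A → ℂ} (hc : ∀ S R g, c S R g ≠ 0 → Al G F S R)
    (S R : Finset V) (g : A) : bdMix F ι t ν (bdMix F ι t ν c) S R g = 0 := by
  have h1 : ∀ u S R g, tm F ι t (bdMix F ι t ν c) u S R g =
      ∑ v ∈ (insert u R)ᶜ, sg ν (insert u R) v *
        tm F ι t (fun S' R' => tm F ι t c v S' R') u S R g := by
    intro u S R g
    have h0 : ∀ S' R', bdMix F ι t ν c S' R' = fun g => ∑ v ∈ R'ᶜ, sg ν R' v * tm F ι t c v S' R' g :=
      fun S' R' => rfl
    by_cases hu : u ∈ F
    · by_cases huS : u ∈ S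
      · simp only [tm_S hu huS]
        rw [h0, E_sum (hy.fin u hu)]
        exact sum_congr rfl fun v _ => E_mul (hy.fin u hu) _ _ _
      · simp only [tm_nS hu huS]
        rw [h0]
        beta_reduce
        rw [← sum_neg_distrib]
        refine sum_congr rfl fun v _ => ?_
        rw [mul_neg]
    · simp only [tm_nF hu (c := bdMix F ι t ν c)]
      rw [h0]
      beta_reduce
      rw [← sum_sub_distrib]
      refine sum_congr rfl fun v _ => ?_
      rw [tm_nF hu, mul_sub]
  rw [bdMix_eq]
  simp only [h1, mul_sum]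
  -- the sum over the ordered pairs
  have h2 : ∀ u ∈ Rᶜ, ∑ v ∈ (insert u R)ᶜ, sg ν R u * (sg ν (insert u R) v *
      tm F ι t (fun S' R' => tm F ι t c v S' R') u S R g) = ∑ v ∈ Rᶜ, if u = v then 0 else
        sg ν R u * (sg ν (insert u R) v * tm F ι t (fun S' R' => tm F ι t c v S' R') u S R g) := by
    intro u hu
    have h3 : (insert u R)ᶜ = Rᶜ.erase u := by
      ext w
      simp only [mem_compl, mem_insert, mem_erase, not_or]
    rw [h3, ← sum_erase (s := Rᶜ) (a := u) (f := fun v => if u = v then 0 else
      sg ν R u * (sg ν (insert u R) v *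
        tm F ι t (fun S' R' => tm F ι t c v S' R') u S R g)) (by simp)]
    refine sum_congr rfl fun v hv => ?_
    rw [if_neg (ne_of_mem_erase hv).symm]
  rw [sum_congr rfl h2]
  set Φ : V → V → ℂ := fun u v => if u = v then 0 else
    sg ν R u * (sg ν (insert u R) v * tm F ι t (fun S' R' => tm F ι t c v S' R') u S R g) with hΦ
  have h4 : ∀ u ∈ Rᶜ, ∀ v ∈ Rᶜ, Φ u v = - Φ v u := by
    intro u hu v hv
    rw [hΦ]
    beta_reduce
    by_cases huv : u = v
    · rw [if_pos huv, if_pos huv.symm, neg_zero]
    · rw [if_neg huv, if_neg (Ne.symm huv), tm_comm hy hc huv S R g]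
      have h5 := sg_swap hν (mem_compl.1 hu) (mem_compl.1 hv) huv
      linear_combination (tm F ι t (fun S' R' => tm F ι t c u S' R') v S R g) * h5
  have h6 : ∑ u ∈ Rᶜ, ∑ v ∈ Rᶜ, Φ u v = - ∑ u ∈ Rᶜ, ∑ v ∈ Rᶜ, Φ u v := by
    conv_lhs => rw [sum_comm]
    rw [← sum_neg_distrib]
    refine sum_congr rfl fun v hv => ?_
    rw [← sum_neg_distrib]
    exact sum_congr rfl fun u hu => h4 u hu v hv
  exact self_eq_neg.1 h6

theorem supp' {c : Finset V → Finset V → A → ℂ} (hc : IsMixChain G F ι i c) :
    ∀ S R g, c S R g ≠ 0 → Al G F S R :=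
  fun S R g h => ⟨(hc.supp S R g h).1, (hc.supp S R g h).2.1, (hc.supp S R g h).2.2.1⟩

theorem bd_chain (hy : Hyp G F ι t) {c : Finset V → Finset V → A → ℂ}
    (hc : IsMixChain G F ι (i + 1) c) : IsMixChain G F ι i (bdMix F ι t ν c) := by
  have hz : ∀ S R g, ¬ Al G F S R → bdMix F ι t ν c S R g = 0 := by
    intro S R g h
    rw [bdMix_eq]
    refine sum_eq_zero fun v hv => ?_
    rw [tm_zero (supp' hc) (mem_compl.1 hv) h, mul_zero]
  refine ⟨fun S R g h => ?_, fun S R u hu x g => ?_, fun S R => ?_⟩
  · have h1 : Al G F S R := by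
      by_contra h2
      exact h (hz S R g h2)
    refine ⟨h1.1, h1.2.1, h1.2.2, ?_⟩
    rw [bdMix_eq] at h
    obtain ⟨v, hv, h2⟩ := exists_ne_zero_of_sum_ne_zero h
    have h3 := right_ne_zero_of_mul h2
    have hcard := card_insert_of_notMem (mem_compl.1 hv)
    by_cases hvF : v ∈ F
    · by_cases hvS : v ∈ S
      · rw [tm_S hvF hvS] at h3
        obtain ⟨x, h5⟩ := exists_of_E_ne h3
        have h6 := (hc.supp _ _ _ h5).2.2.2
        omega
      · rw [tm_nS hvF hvS] at h3
        have h6 := (hc.supp _ _ _ (neg_ne_zero.1 h3)).2.2.2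
        omega
    · rw [tm_nF hvF] at h3
      by_cases h4 : c S (insert v R) g = 0
      · rw [h4, sub_zero] at h3
        have h6 := (hc.supp _ _ _ h3).2.2.2
        omega
      · have h6 := (hc.supp _ _ _ h4).2.2.2
        omega
  · by_cases h1 : Al G F S R
    · rw [bdMix_eq, bdMix_eq]
      refine sum_congr rfl fun v hv => ?_
      congr 1
      have huF : u ∈ F := h1.1 hu
      by_cases hvF : v ∈ F
      · by_cases hvS : v ∈ S
        · rw [tm_S hvF hvS, tm_S hvF hvS]
          by_cases huv : v = u
          · subst huv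
            exact E_inv _ g x
          · have hadj : G.Adj u v := h1.2.2 (by exact_mod_cast mem_union_left R hu)
              (by exact_mod_cast mem_union_left R hvS) (Ne.symm huv)
            have h2 : ∀ y : H v, Commute (ι v y) (ι u x) :=
              fun y => (hy.cm u v hadj huF hvF x y).symm
            rw [← E_shift h2]
            congr 1
            funext g
            exact hc.inv _ _ u (mem_erase.2 ⟨Ne.symm huv, hu⟩) x _
        · rw [tm_nS hvF hvS, tm_nS hvF hvS, hc.inv S _ u hu x g]
      · rw [tm_nF hvF, tm_nF hvF, hc.inv S _ u hu x g]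
        congr 1
        by_cases h3 : Al G F S (insert v R)
        · have huv : u ≠ v := fun h => hvF (h ▸ huF)
          have hadj : G.Adj u v := h3.2.2 (by exact_mod_cast mem_union_left _ hu)
            (by exact_mod_cast mem_union_right _ (mem_insert_self v R)) huv
          rw [mul_assoc, ((hy.ct u v hadj huF hvF x).inv_right).eq, ← mul_assoc]
          exact hc.inv S _ u hu x _
        · have h4 : ∀ g, c S (insert v R) g = 0 := by
            intro g
            by_contra h5
            exact h3 (supp' hc _ _ _ h5)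
          rw [h4, h4]
    · rw [hz S R _ h1, hz S R _ h1]
  · simp only [bdMix_eq]
    refine summable_sum _ _ fun v _ => summable_smul _ ?_
    by_cases hvF : v ∈ F
    · by_cases hvS : v ∈ S
      · simp only [tm_S hvF hvS]
        exact E_l2 (hy.fin v hvF) (hc.l2 _ _)
      · simp only [tm_nS hvF hvS, norm_neg]
        exact hc.l2 _ _
    · simp only [tm_nF hvF]
      have h1 := summable_add (summable_shift (hc.l2 S (insert v R)) (t v)⁻¹)
        (summable_smul (-1) (hc.l2 S (insert v R)))
      simpa only [neg_mul, one_mul, ← sub_eq_add_neg] using h1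

/-! ### Elimination of a label from the sets `S` -/

/-- the chain whose boundary eliminates the cubes with `v ∈ S` -/
noncomputable def el (H : V → Type) (ν : V → ℕ) (v : V) (c : Finset V → Finset V → A → ℂ)
    (S R : Finset V) (g : A) : ℂ :=
  if v ∈ R ∧ v ∉ S then sg ν (R.erase v) v / (Nat.card (H v) : ℂ) *
    c (insert v S) (R.erase v) g else 0

/-- the state of the elimination: only labels in `U` occur in `S`, and the means in the directions
of `F` outside `U` vanish -/
def Elim (F : Finset V) (ι : ∀ v, H v →* A) (U : Finset V) (c : Finset V → Finset V → A → ℂ) :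
    Prop :=
  (∀ S R g, c S R g ≠ 0 → S ⊆ U) ∧
    ∀ S R, ∀ v ∈ R, v ∈ F → v ∉ U → ∀ g, E ι v (c S R) g = 0

theorem el_eq {c : Finset V → Finset V → A → ℂ} {v : V} {S R : Finset V} (h : v ∈ R ∧ v ∉ S) :
    el H ν v c S R = fun g => sg ν (R.erase v) v / (Nat.card (H v) : ℂ) *
      c (insert v S) (R.erase v) g := by
  funext g
  unfold el
  rw [if_pos h]

theorem el_zero {c : Finset V → Finset V → A → ℂ} {v : V} {S R : Finset V} (h : ¬ (v ∈ R ∧ v ∉ S))
    (g : A) : el H ν v c S R g = 0 := by
  unfold el
  rw [if_neg h]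

theorem el_chain {c : Finset V → Finset V → A → ℂ} (hc : IsMixChain G F ι i c) (v : V) :
    IsMixChain G F ι (i + 1) (el H ν v c) := by
  refine ⟨fun S R g h => ?_, fun S R u hu x g => ?_, fun S R => ?_⟩
  · by_cases h1 : v ∈ R ∧ v ∉ S
    · rw [el_eq h1] at h
      obtain ⟨h0, h2, h3, h4⟩ := hc.supp _ _ _ (right_ne_zero_of_mul h)
      refine ⟨(subset_insert v S).trans h0, ?_, ?_, ?_⟩
      · rw [disjoint_left] at h2 ⊢
        intro u huS huR
        have huv : u ≠ v := fun h => h1.2 (h ▸ huS)
        exact h2 (mem_insert_of_mem huS) (mem_erase.2 ⟨huv, huR⟩)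
      · have h5 : insert v S ∪ R.erase v = S ∪ R := by
          ext u
          simp only [mem_union, mem_erase, mem_insert]
          constructor
          · rintro ((h | h) | h)
            · exact Or.inr (h ▸ h1.1)
            · exact Or.inl h
            · exact Or.inr h.2
          · rintro (h | h)
            · exact Or.inl (Or.inr h)
            · by_cases huv : u = v
              · exact Or.inl (Or.inl huv)
              · exact Or.inr ⟨huv, h⟩
        rwa [h5] at h3
      · rw [card_erase_of_mem h1.1] at h4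
        have := card_pos.2 ⟨v, h1.1⟩
        omega
    · exact absurd (el_zero h1 g) h
  · by_cases h1 : v ∈ R ∧ v ∉ S
    · rw [el_eq h1]
      beta_reduce
      rw [hc.inv _ _ u (mem_insert_of_mem hu) x g]
    · rw [el_zero h1, el_zero h1]
  · by_cases h1 : v ∈ R ∧ v ∉ S
    · rw [el_eq h1]
      exact summable_smul _ (hc.l2 _ _)
    · simp only [el_zero h1, norm_zero]
      simp

/-- the boundary of the eliminating chain on the cubes with `v ∈ S` -/
theorem bd_el (hy : Hyp G F ι t) {c : Finset V → Finset V → A → ℂ} (hc : IsMixChain G F ι i c)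
    {v : V} (hvF : v ∈ F) {S R : Finset V} (hv : v ∈ S) (g : A) :
    bdMix F ι t ν (el H ν v c) S R g = c S R g := by
  have hz : ∀ w, w ≠ v → tm F ι t (el H ν v c) w S R g = 0 := by
    intro w hwv
    by_cases hwF : w ∈ F
    · by_cases hwS : w ∈ S
      · rw [tm_S hwF hwS]
        exact E_eq_zero fun x => el_zero (fun h => h.2 (mem_erase.2 ⟨hwv.symm, hv⟩)) _
      · rw [tm_nS hwF hwS, el_zero (fun h => h.2 hv), neg_zero]
    · rw [tm_nF hwF, el_zero (fun h => h.2 hv), el_zero (fun h => h.2 hv), sub_zero]
  by_cases hR : v ∈ R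
  · have h1 : c S R g = 0 := by
      by_contra h
      exact disjoint_left.1 (hc.supp _ _ _ h).2.1 hv hR
    rw [h1, bdMix_eq]
    refine sum_eq_zero fun w hw => ?_
    rw [hz w fun h => mem_compl.1 hw (h ▸ hR), mul_zero]
  · rw [bdMix_eq, sum_eq_single v]
    · rw [tm_S hvF hv]
      have hfin := hy.fin v hvF
      rw [el_eq ⟨mem_insert_self v R, notMem_erase v S⟩, erase_insert hR, insert_erase hv,
        E_mul hfin, E_const hfin fun x => hc.inv S R v hv x g]
      have h3 : (Nat.card (H v) : ℂ) ≠ 0 := Nat.cast_ne_zero.2 Nat.card_pos.ne'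
      have h4 : sg ν R v * sg ν R v = 1 := by
        unfold sg
        rw [← mul_pow]
        norm_num
      field_simp
      linear_combination (c S R g) * h4
    · intro w hw hwv
      rw [hz w hwv, mul_zero]
    · intro h
      exact absurd (mem_compl.2 hR) h

theorem bd_sub (hy : Hyp G F ι t) (c c' : Finset V → Finset V → A → ℂ) (S R : Finset V) (g : A) :
    bdMix F ι t ν (fun S R g => c S R g - c' S R g) S R g =
      bdMix F ι t ν c S R g - bdMix F ι t ν c' S R g := by
  rw [bdMix_eq, bdMix_eq, bdMix_eq, ← sum_sub_distrib]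
  refine sum_congr rfl fun w _ => ?_
  rw [← mul_sub]
  congr 1
  by_cases hwF : w ∈ F
  · by_cases hwS : w ∈ S
    · rw [tm_S hwF hwS, tm_S hwF hwS, tm_S hwF hwS, E_sub (hy.fin w hwF)]
    · rw [tm_nS hwF hwS, tm_nS hwF hwS, tm_nS hwF hwS]
      ring
  · rw [tm_nF hwF, tm_nF hwF, tm_nF hwF]
    ring

theorem bd_add (hy : Hyp G F ι t) (c c' : Finset V → Finset V → A → ℂ) (S R : Finset V) (g : A) :
    bdMix F ι t ν (fun S R g => c S R g + c' S R g) S R g =
      bdMix F ι t ν c S R g + bdMix F ι t ν c' S R g := by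
  rw [bdMix_eq, bdMix_eq, bdMix_eq, ← sum_add_distrib]
  refine sum_congr rfl fun w _ => ?_
  rw [← mul_add]
  congr 1
  by_cases hwF : w ∈ F
  · by_cases hwS : w ∈ S
    · rw [tm_S hwF hwS, tm_S hwF hwS, tm_S hwF hwS, E_add (hy.fin w hwF)]
    · rw [tm_nS hwF hwS, tm_nS hwF hwS, tm_nS hwF hwS]
      ring
  · rw [tm_nF hwF, tm_nF hwF, tm_nF hwF]
    ring

/-- **One step of the elimination.** -/
theorem step (hν : Function.Injective ν) (hy : Hyp G F ι t)
    {c : Finset V → Finset V → A → ℂ} (hc : IsMixChain G F ι i c)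
    (hd : ∀ S R g, bdMix F ι t ν c S R g = 0)
    {U : Finset V} {v : V} (hvF : v ∈ F) (hU : Elim F ι (insert v U) c) :
    ∃ y, IsMixChain G F ι (i + 1) y ∧
      IsMixChain G F ι i (fun S R g => c S R g - bdMix F ι t ν y S R g) ∧
      (∀ S R g, bdMix F ι t ν (fun S R g => c S R g - bdMix F ι t ν y S R g) S R g = 0) ∧
      Elim F ι U fun S R g => c S R g - bdMix F ι t ν y S R g := by
  set y := el H ν v c with hydef
  have hyc : IsMixChain G F ι (i + 1) y := el_chain hc v
  have hyb : IsMixChain G F ι i (bdMix F ι t ν y) := bd_chain hy hyc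
  have hcy : IsMixChain G F ι i (fun S R g => c S R g - bdMix F ι t ν y S R g) := by
    refine ⟨fun S R g h => ?_, fun S R u hu x g => ?_, fun S R => ?_⟩
    · by_cases h1 : c S R g = 0
      · refine hyb.supp S R g fun h2 => h ?_
        beta_reduce
        rw [h1, h2, sub_zero]
      · exact hc.supp S R g h1
    · beta_reduce
      rw [hc.inv S R u hu x g, hyb.inv S R u hu x g]
    · have h1 := summable_add (hc.l2 S R) (summable_smul (-1) (hyb.l2 S R))
      simpa only [neg_mul, one_mul, ← sub_eq_add_neg] using h1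
  have hdy : ∀ S R g, bdMix F ι t ν (fun S R g => c S R g - bdMix F ι t ν y S R g) S R g = 0 := by
    intro S R g
    rw [bd_sub hy, hd, bd_bd hν hy (supp' hyc), sub_zero]
  -- no label `v` in `S`
  have hnv : ∀ S R g, v ∈ S → c S R g - bdMix F ι t ν y S R g = 0 := by
    intro S R g hv
    rw [hydef, bd_el hy hc hvF hv, sub_self]
  refine ⟨y, hyc, hcy, hdy, fun S R g h => ?_, fun S R w hw hwF hwU g => ?_⟩
  · -- the labels of `S`
    have h1 : S ⊆ insert v U := by
      by_contra h2
      obtain ⟨w, hwS, hwU⟩ := not_subset.1 h2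
      refine h ?_
      beta_reduce
      have h3 : c S R g = 0 := by
        by_contra h4
        exact hwU (hU.1 S R g h4 hwS)
      have hyz : ∀ S' R' g', w ∈ S' → y S' R' g' = 0 := by
        intro S' R' g' hwS'
        rw [hydef]
        by_cases h8 : v ∈ R' ∧ v ∉ S'
        · rw [el_eq h8]
          beta_reduce
          have h9 : c (insert v S') (R'.erase v) g' = 0 := by
            by_contra h10
            exact hwU (hU.1 _ _ _ h10 (mem_insert_of_mem hwS'))
          rw [h9, mul_zero]
        · exact el_zero h8 g'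
      rw [h3, zero_sub, neg_eq_zero, bdMix_eq]
      refine sum_eq_zero fun u hu => ?_
      have h5 : tm F ι t y u S R g = 0 := by
        by_cases huF : u ∈ F
        · by_cases huS : u ∈ S
          · rw [tm_S huF huS]
            by_cases huw : u = w
            · subst huw
              rw [hydef]
              by_cases h8 : v ∈ insert u R ∧ v ∉ S.erase u
              · rw [el_eq h8, E_mul (hy.fin u huF), hU.2 _ _ u ?_ huF hwU g, mul_zero]
                have huv : u ≠ v := fun h => hwU (h ▸ mem_insert_self v U)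
                exact mem_erase.2 ⟨huv, mem_insert_self u R⟩
              · exact E_eq_zero fun x => el_zero h8 _
            · exact E_eq_zero fun x => hyz _ _ _ (mem_erase.2 ⟨Ne.symm huw, hwS⟩)
          · rw [tm_nS huF huS, hyz _ _ _ hwS, neg_zero]
        · rw [tm_nF huF, hyz _ _ _ hwS, hyz _ _ _ hwS, sub_zero]
      rw [h5, mul_zero]
    intro w hw
    rcases mem_insert.1 (h1 hw) with h2 | h2
    · subst h2
      exact absurd (hnv S R g hw) h
    · exact h2
  · -- the means
    by_cases hvS : v ∈ S
    · exact E_eq_zero fun x => hnv S R _ hvS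
    by_cases hwv : w = v
    · subst hwv
      have h1 := hdy (insert w S) (R.erase w) g
      rw [bdMix_eq, sum_eq_single w] at h1
      · rw [tm_S hvF (mem_insert_self w S), erase_insert hvS, insert_erase hw] at h1
        refine (mul_eq_zero.1 h1).resolve_left ?_
        unfold sg
        exact pow_ne_zero _ (by norm_num)
      · intro u _ huw
        have h2 : tm F ι t (fun S R g => c S R g - bdMix F ι t ν y S R g) u (insert w S)
            (R.erase w) g = 0 := by
          by_cases huF : u ∈ F
          · by_cases huS : u ∈ insert w S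
            · rw [tm_S huF huS]
              exact E_eq_zero fun x => hnv _ _ _ (mem_erase.2 ⟨Ne.symm huw, mem_insert_self w S⟩)
            · rw [tm_nS huF huS, hnv _ _ _ (mem_insert_self w S), neg_zero]
          · rw [tm_nF huF, hnv _ _ _ (mem_insert_self w S), hnv _ _ _ (mem_insert_self w S), sub_zero]
        rw [h2, mul_zero]
      · intro h
        exact absurd (mem_compl.2 (notMem_erase w R)) h
    · -- `w ∈ R` is different from `v`
      have hwU' : w ∉ insert v U := fun h => by
        rcases mem_insert.1 h with h | h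
        · exact hwv h
        · exact hwU h
      have hfw := hy.fin w hwF
      have hym : ∀ S R g, w ∈ R → E ι w (y S R) g = 0 := by
        intro S R g hwR
        rw [hydef]
        by_cases h8 : v ∈ R ∧ v ∉ S
        · rw [el_eq h8, E_mul hfw, hU.2 _ _ w (mem_erase.2 ⟨hwv, hwR⟩) hwF hwU' g, mul_zero]
        · exact E_eq_zero fun x => el_zero h8 _
      have h0 : E ι w (fun g => c S R g - bdMix F ι t ν y S R g) g = 0 := by
        rw [E_sub hfw, hU.2 S R w hw hwF hwU' g, zero_sub, neg_eq_zero]
        by_cases h1 : Al G F S R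
        · have h2 : bdMix F ι t ν y S R = fun g => ∑ u ∈ Rᶜ, sg ν R u * tm F ι t y u S R g := rfl
          rw [h2, E_sum hfw]
          refine sum_eq_zero fun u hu => ?_
          have huw : u ≠ w := fun h => mem_compl.1 hu (h ▸ hw)
          rw [E_mul hfw]
          have h3 : E ι w (tm F ι t y u S R) g = 0 := by
            by_cases huF : u ∈ F
            · by_cases huS : u ∈ S
              · have h4 : tm F ι t y u S R = E ι u (y (S.erase u) (insert u R)) :=
                  funext fun g => tm_S huF huS g
                have hadj : G.Adj w u := h1.2.2 (by exact_mod_cast mem_union_right S hw)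
                  (by exact_mod_cast mem_union_left R huS) (Ne.symm huw)
                rw [h4, E_comm hfw (hy.fin u huF) (hy.cm w u hadj hwF huF)]
                exact E_eq_zero fun x => hym _ _ _ (mem_insert_of_mem hw)
              · have h4 : tm F ι t y u S R = fun g => -y S (insert u R) g :=
                  funext fun g => tm_nS huF huS g
                rw [h4, E_neg hfw, hym _ _ _ (mem_insert_of_mem hw), neg_zero]
            · have h4 : tm F ι t y u S R =
                  fun g => y S (insert u R) (g * (t u)⁻¹) - y S (insert u R) g :=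
                funext fun g => tm_nF huF g
              rw [h4, E_sub hfw, hym _ _ _ (mem_insert_of_mem hw), sub_zero]
              by_cases h5 : Al G F S (insert u R)
              · have hadj : G.Adj w u := h5.2.2
                  (by exact_mod_cast mem_union_right S (mem_insert_of_mem hw))
                  (by exact_mod_cast mem_union_right S (mem_insert_self u R)) (Ne.symm huw)
                rw [E_shift fun x => (hy.ct w u hadj hwF huF x).inv_right]
                exact hym _ _ _ (mem_insert_of_mem hw)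
              · refine E_eq_zero fun x => ?_
                by_contra h6
                exact h5 (supp' hyc _ _ _ h6)
          rw [h3, mul_zero]
        · refine E_eq_zero fun x => ?_
          by_contra h2
          exact h1 (supp' hyb _ _ _ h2)
      exact h0

theorem chain_add {c c' : Finset V → Finset V → A → ℂ} (hc : IsMixChain G F ι i c)
    (hc' : IsMixChain G F ι i c') : IsMixChain G F ι i (fun S R g => c S R g + c' S R g) := by
  refine ⟨fun S R g h => ?_, fun S R u hu x g => ?_, fun S R => summable_add (hc.l2 S R) (hc'.l2 S R)⟩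
  · by_cases h1 : c S R g = 0
    · refine hc'.supp S R g fun h2 => h ?_
      beta_reduce
      rw [h1, h2, add_zero]
    · exact hc.supp S R g h1
  · beta_reduce
    rw [hc.inv S R u hu x g, hc'.inv S R u hu x g]

/-- **The elimination.** -/
theorem all (hν : Function.Injective ν) (hy : Hyp G F ι t) (U : Finset V) (hUF : U ⊆ F)
    (c : Finset V → Finset V → A → ℂ) (hc : IsMixChain G F ι i c)
    (hd : ∀ S R g, bdMix F ι t ν c S R g = 0) (hU : Elim F ι U c) :
    ∃ y, IsMixChain G F ι (i + 1) y ∧
      IsMixChain G F ι i (fun S R g => c S R g - bdMix F ι t ν y S R g) ∧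
      (∀ S R g, bdMix F ι t ν (fun S R g => c S R g - bdMix F ι t ν y S R g) S R g = 0) ∧
      Elim F ι ∅ fun S R g => c S R g - bdMix F ι t ν y S R g := by
  induction U using Finset.induction_on generalizing c with
  | empty =>
    have h0 : ∀ S R g, bdMix F ι t ν (fun _ _ _ => (0 : ℂ)) S R g = (0 : ℂ) := by
      intro S R g
      unfold bdMix
      refine sum_eq_zero fun v _ => ?_
      split_ifs <;> simp
    refine ⟨fun _ _ _ => 0, ⟨fun S R g h => absurd rfl h, fun S R v _ x g => rfl, fun S R => by
      simpa using summable_zero⟩, ?_, ?_, ?_⟩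
    · simpa only [h0, sub_zero] using hc
    · simpa only [h0, sub_zero] using hd
    · simpa only [h0, sub_zero] using hU
  | insert v U _ ih =>
    obtain ⟨y, h1, hcy, hdy, hey⟩ := step hν hy hc hd (hUF (mem_insert_self v U)) hU
    obtain ⟨y', h1', hcy', hdy', hey'⟩ := ih ((subset_insert v U).trans hUF) _ hcy hdy hey
    have h2 : (fun S R g => c S R g - bdMix F ι t ν (fun S R g => y S R g + y' S R g) S R g) =
        fun S R g => (c S R g - bdMix F ι t ν y S R g) - bdMix F ι t ν y' S R g := by
      funext S R g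
      rw [bd_add hy]
      ring
    refine ⟨fun S R g => y S R g + y' S R g, chain_add h1 h1', ?_, ?_, ?_⟩
    · rw [h2]
      exact hcy'
    · rw [h2]
      exact hdy'
    · rw [h2]
      exact hey'

end Mix

open Mix

/-- **Reduced chains compute the reduced `ℓ²`-homology of the cube complex.** -/
theorem l2zeroMix_of_mod
    (hF : ∀ v ∈ F, Finite (H v))
    (hcm : ∀ u v, G.Adj u v → u ∈ F → v ∈ F → ∀ (x : H u) (y : H v), Commute (ι u x) (ι v y))
    (hct : ∀ u v, G.Adj u v → u ∈ F → v ∉ F → ∀ x : H u, Commute (ι u x) (t v))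
    (htt : ∀ u v, G.Adj u v → u ∉ F → v ∉ F → Commute (t u) (t v))
    (h : L2ZeroMixMod G F ι t i) : L2ZeroMix G F ι t i := by
  have hyp : Hyp G F ι t := ⟨hF, hcm, hct, htt⟩
  intro ν hν z hz hdz ε hε
  obtain ⟨Y, hY, hcY, hdY, heY⟩ := all hν hyp F (Subset.refl F) z hz hdz
    ⟨fun S R g h => (hz.supp S R g h).1, fun S R v _ hv hv' => absurd hv hv'⟩
  set c : Finset V → Finset V → A → ℂ := fun S R g => z S R g - bdMix F ι t ν Y S R g with hc
  have hcS : ∀ S R g, S ≠ ∅ → c S R g = 0 := by
    intro S R g hS
    by_contra h1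
    exact hS (subset_empty.1 (heY.1 S R g h1))
  have hf : IsMixModel G F ι i fun T g => c ∅ T g := by
    refine ⟨fun T g h1 => ?_, fun T v hv hvF g => heY.2 ∅ T v hv hvF (notMem_empty v) g,
      fun T => hcY.l2 ∅ T⟩
    obtain ⟨-, -, h3, h4⟩ := hcY.supp ∅ T g h1
    rw [empty_union] at h3
    exact ⟨h3, h4⟩
  have hdf : ∀ T g, bdMixMod F t ν (fun T g => c ∅ T g) T g = 0 := by
    intro T g
    have h1 := hdY ∅ T g
    unfold bdMix at h1
    unfold bdMixMod
    rw [← neg_eq_zero, ← sum_neg_distrib]
    refine Eq.trans (sum_congr rfl fun v _ => ?_) h1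
    rw [if_neg (notMem_empty v)]
    split_ifs
    · rw [mul_neg]
    · rw [← mul_neg, neg_sub]
  obtain ⟨y, hy, hlt⟩ := h ν hν _ hf hdf ε hε
  set η : Finset V → Finset V → A → ℂ := fun S R g => if S = ∅ then -y R g else 0 with hη
  have hη0 : ∀ R g, η ∅ R g = -y R g := fun R g => if_pos rfl
  have hηS : ∀ S R g, S ≠ ∅ → η S R g = 0 := fun S R g hS => if_neg hS
  have hηc : IsMixChain G F ι (i + 1) η := by
    refine ⟨fun S R g h1 => ?_, fun S R v hv x g => ?_, fun S R => ?_⟩
    · by_cases hS : S = ∅
      · subst hS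
        rw [hη0, neg_ne_zero] at h1
        obtain ⟨h3, h4⟩ := hy.supp R g h1
        refine ⟨empty_subset F, disjoint_empty_left R, ?_, h4⟩
        rw [empty_union]
        exact h3
      · exact absurd (hηS S R g hS) h1
    · have hS : S ≠ ∅ := ne_empty_of_mem hv
      rw [hηS S R _ hS, hηS S R _ hS]
    · by_cases hS : S = ∅
      · subst hS
        simp only [hη0, norm_neg]
        exact hy.l2 R
      · simp only [hηS S R _ hS, norm_zero]
        simpa using summable_zero
  have hb0 : ∀ R g, bdMix F ι t ν η ∅ R g = bdMixMod F t ν y R g := by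
    intro R g
    unfold bdMix bdMixMod
    refine sum_congr rfl fun v _ => ?_
    rw [if_neg (notMem_empty v), hη0, hη0]
    split_ifs
    · rw [neg_neg]
    · ring
  have hbS : ∀ S R g, S ≠ ∅ → bdMix F ι t ν η S R g = 0 := by
    intro S R g hS
    rw [bdMix_eq]
    refine sum_eq_zero fun v _ => ?_
    have h1 : tm F ι t η v S R g = 0 := by
      by_cases hvF : v ∈ F
      · by_cases hvS : v ∈ S
        · rw [tm_S hvF hvS]
          by_cases h2 : S.erase v = ∅
          · rw [h2]
            have h3 : η ∅ (insert v R) = fun g => -y (insert v R) g := funext fun g => hη0 _ g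
            rw [h3, E_neg (hF v hvF)]
            have h4 := hy.mean (insert v R) v (mem_insert_self v R) hvF g
            have h5 : E ι v (y (insert v R)) g = 0 := h4
            rw [h5, neg_zero]
          · exact E_eq_zero fun x => hηS _ _ _ h2
        · rw [tm_nS hvF hvS, hηS _ _ _ hS, neg_zero]
      · rw [tm_nF hvF, hηS _ _ _ hS, hηS _ _ _ hS, sub_zero]
    rw [h1, mul_zero]
  refine ⟨fun S R g => Y S R g + η S R g, chain_add hY hηc, ?_⟩
  have h1 : ∀ S R g, z S R g - bdMix F ι t ν (fun S R g => Y S R g + η S R g) S R g =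
      c S R g - bdMix F ι t ν η S R g := by
    intro S R g
    rw [bd_add hyp, hc]
    ring
  simp only [h1]
  rw [sum_eq_single ∅]
  · simp only [hb0]
    exact hlt
  · intro S _ hS
    refine sum_eq_zero fun R _ => ?_
    simp only [hcS S R _ hS, hbS S R _ hS, sub_zero, norm_zero]
    simp
  · intro h2
    exact absurd (mem_univ _) h2

end Pool.Agent.H85.DV
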